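import Mathlib

namespace Pool.Agent.Results.MP_ca57f4_an.PerpendicularLines

open Set

/-- a lattice point as a point of the plane -/
def pt (y : ℤ × ℤ) : ℝ × ℝ := ((y.1 : ℝ), (y.2 : ℝ))

/-- Euclidean length -/
noncomputable def len (v : ℝ × ℝ) : ℝ := √(v.1 ^ 2 + v.2 ^ 2)

/-- the line `{p + t v : t ∈ ℝ}` -/
def line (p v : ℝ × ℝ) : Set (ℝ × ℝ) := {q | ∃ t : ℝ, q = p + t • v}

/-- the lines of `𝒯*`: for `z ≠ 0` the line through `z` perpendicular to `z`; for `z = 0` the
line through `0` with direction `w/|w|`. -/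
noncomputable def γ (w z : ℤ × ℤ) : Set (ℝ × ℝ) :=
  if z = 0 then line 0 ((len (pt w))⁻¹ • pt w)
  else line (pt z) ((len (pt z))⁻¹ • ((-(z.2 : ℝ), (z.1 : ℝ)) : ℝ × ℝ))

/-- the sum of `f` over the lattice points of `L` -/
noncomputable def P (f : ℤ × ℤ → ℂ) (L : Set (ℝ × ℝ)) : ℂ :=
  ∑' y : {y : ℤ × ℤ // pt y ∈ L}, f y

/-- `f(x) = O(|x|^{-(1+ε)})` for some `ε > 0`. -/
def Decay (f : ℤ × ℤ → ℂ) : Prop :=
  ∃ ε : ℝ, 0 < ε ∧ ∃ K : ℝ, ∀ y : ℤ × ℤ, y ≠ 0 → ‖f y‖ ≤ K * (len (pt y)) ^ (-(1 + ε))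

/-! ### The one-variable function -/

open scoped Classical in
/-- `x^{-2}` if `|x|` is a power of two, `0` otherwise. -/
noncomputable def g (x : ℤ) : ℝ := if ∃ m : ℕ, |x| = 2 ^ m then 1 / (x : ℝ) ^ 2 else 0

lemma g_zero : g 0 = 0 := by
  unfold g; split_ifs <;> simp

lemma g_pos {x : ℤ} (h : ∃ m : ℕ, |x| = 2 ^ m) : g x = 1 / (x : ℝ) ^ 2 := if_pos h

lemma g_npos {x : ℤ} (h : ¬ ∃ m : ℕ, |x| = 2 ^ m) : g x = 0 := if_neg h

lemma g_neg (x : ℤ) : g (-x) = g x := by
  have hiff : (∃ m : ℕ, |-x| = 2 ^ m) ↔ ∃ m : ℕ, |x| = 2 ^ m := by rw [abs_neg]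
  by_cases h : ∃ m : ℕ, |x| = 2 ^ m
  · rw [g_pos h, g_pos (hiff.mpr h)]; push_cast; rw [neg_sq]
  · rw [g_npos h, g_npos fun h' => h (hiff.mp h')]

lemma g_two (x : ℤ) : g (2 * x) = g x / 4 := by
  rcases eq_or_ne x 0 with rfl | hx
  · simp [g_zero]
  have hiff : (∃ m : ℕ, |2 * x| = 2 ^ m) ↔ ∃ m : ℕ, |x| = 2 ^ m := by
    constructor
    · rintro ⟨m, hm⟩
      rw [abs_mul, abs_two] at hm
      rcases m with _ | m
      · rw [pow_zero] at hm; omega
      · refine ⟨m, ?_⟩
        rw [pow_succ] at hm; linarith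
    · rintro ⟨m, hm⟩
      refine ⟨m + 1, ?_⟩
      rw [abs_mul, abs_two, hm, pow_succ]; ring
  by_cases h : ∃ m : ℕ, |x| = 2 ^ m
  · rw [g_pos h, g_pos (hiff.mpr h)]
    push_cast
    have : (x : ℝ) ≠ 0 := by exact_mod_cast hx
    field_simp
    norm_num
  · rw [g_npos h, g_npos fun h' => h (hiff.mp h')]; simp

lemma g_nonneg (x : ℤ) : 0 ≤ g x := by
  unfold g; split_ifs <;> positivity

lemma g_le (x : ℤ) : g x ≤ 1 / (x : ℝ) ^ 2 := by
  unfold g; split_ifs
  · exact le_refl _
  · positivity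

/-- the arithmetic lemma -/
lemma arith (m : ℕ) : ∀ a b : ℤ, a ^ 2 + b ^ 2 = 2 ^ m * a → b = 0 ∨ b = a ∨ b = -a := by
  induction m with
  | zero =>
    intro a b h
    left
    rw [pow_zero, one_mul] at h
    have h1 : 0 ≤ a := by nlinarith [sq_nonneg a, sq_nonneg b]
    have h2 : a ≤ 1 := by nlinarith [sq_nonneg b]
    have h3 : b ^ 2 = 0 := by
      have : a = 0 ∨ a = 1 := by omega
      rcases this with rfl | rfl <;> linarith
    exact pow_eq_zero_iff (two_ne_zero) |>.mp h3
  | succ m ih =>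
    intro a b h
    rcases Int.even_or_odd' a with ⟨p, hp | hp⟩ <;> rcases Int.even_or_odd' b with ⟨q, hq | hq⟩
    · subst hp; subst hq
      have h1 : p ^ 2 + q ^ 2 = 2 ^ m * p := by
        have : 4 * (p ^ 2 + q ^ 2) = 4 * (2 ^ m * p) := by linear_combination h
        linarith
      rcases ih p q h1 with h2 | h2 | h2
      · left; omega
      · right; left; omega
      · right; right; omega
    · exfalso
      subst hp; subst hq
      have h1 : 2 * (2 * p ^ 2 + 2 * q ^ 2 + 2 * q) + 1 = 2 * (2 ^ m * (2 * p)) := by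
        linear_combination h
      omega
    · exfalso
      subst hp; subst hq
      have h1 : 2 * (2 * p ^ 2 + 2 * q ^ 2 + 2 * p) + 1 = 2 * (2 ^ m * (2 * p + 1)) := by
        linear_combination h
      omega
    · rcases m with _ | m
      · rw [zero_add, pow_one] at h
        have h1 : (a - 1) ^ 2 + b ^ 2 = 1 := by linarith
        have hb0 : b ≠ 0 := by omega
        have hb1 : 1 ≤ b ^ 2 := by
          have : 0 < b ^ 2 := by positivity
          omega
        have h2 : (a - 1) ^ 2 = 0 := by nlinarith [sq_nonneg (a - 1)]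
        have h3 : a = 1 := by
          have := pow_eq_zero_iff (two_ne_zero) |>.mp h2
          omega
        have h4 : b ^ 2 = 1 := by nlinarith
        have h6 : (b - 1) * (b + 1) = 0 := by linear_combination h4
        rcases mul_eq_zero.mp h6 with h5 | h5
        · right; left; omega
        · right; right; omega
      · exfalso
        subst hp; subst hq
        have h1 : 2 * (p ^ 2 + p + q ^ 2 + q) + 1 = 2 * (2 ^ m * (2 * p + 1)) := by
          have : 2 * (2 * (p ^ 2 + p + q ^ 2 + q) + 1) = 2 * (2 * (2 ^ m * (2 * p + 1))) := by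
            linear_combination h
          linarith
        omega

lemma g_eq_zero {x a b : ℤ} (h : x * a = a ^ 2 + b ^ 2) (h0 : b ≠ 0) (h1 : b ≠ a)
    (h2 : b ≠ -a) : g x = 0 := by
  unfold g
  rw [if_neg]
  rintro ⟨m, hm⟩
  rcases abs_choice x with hx | hx
  · rw [hx] at hm
    rcases arith m a b (by rw [← hm]; linarith) with h3 | h3 | h3
    · exact h0 h3
    · exact h1 h3
    · exact h2 h3
  · rw [hx] at hm
    rcases arith m (-a) b (by rw [← hm]; linarith) with h3 | h3 | h3
    · exact h0 h3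
    · exact h2 h3
    · exact h1 (by rw [h3]; ring)

/-! ### The function on the lattice -/

/-- `F 0` is supported on the Gaussian integers `u(1+i)^j`, with value `(-1/2)^j`; `c` is the
value at the origin. -/
noncomputable def F (c : ℝ) (y : ℤ × ℤ) : ℝ :=
  (if y.2 = 0 then g y.1 else 0) + (if y.1 = 0 then g y.2 else 0) +
  (if y.1 = y.2 then -(g y.1) / 2 else 0) + (if y.1 = -y.2 then -(g y.1) / 2 else 0) +
  (if y = 0 then c else 0)

lemma hasSum_line (c : ℝ) (a b : ℤ) (hz : a ≠ 0 ∨ b ≠ 0) :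
    HasSum (fun y : ℤ × ℤ => if y.1 * a + y.2 * b = a ^ 2 + b ^ 2 then F c y else 0) 0 := by
  have hN : 0 < a ^ 2 + b ^ 2 := by
    rcases hz with h | h <;> positivity
  by_cases hb : b = 0
  · subst hb
    have ha : a ≠ 0 := by simpa using hz
    have hs : ∀ y : ℤ × ℤ, y ∉ ({(a, 0), (a, a), (a, -a)} : Finset (ℤ × ℤ)) →
        (if y.1 * a + y.2 * 0 = a ^ 2 + 0 ^ 2 then F c y else 0) = 0 := by
      rintro ⟨y1, y2⟩ hy
      simp only [Finset.mem_insert, Finset.mem_singleton, Prod.mk.injEq, not_or, not_and] at hy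
      split_ifs with h
      · have h1 : y1 = a := by
          have : y1 * a = a * a := by simp only at h; linarith
          exact mul_right_cancel₀ ha this
        subst h1
        have e1 : y2 ≠ 0 := hy.1 rfl
        have e2 : y1 ≠ y2 := fun h => hy.2.1 rfl h.symm
        have e3 : y1 ≠ -y2 := fun h => hy.2.2 rfl (by omega)
        simp [F, e1, e2, e3, ha]
      · rfl
    have key : HasSum (fun y : ℤ × ℤ => if y.1 * a + y.2 * 0 = a ^ 2 + 0 ^ 2 then F c y else 0)
        (∑ y ∈ ({(a, 0), (a, a), (a, -a)} : Finset (ℤ × ℤ)), (if y.1 * a + y.2 * 0 = a ^ 2 + 0 ^ 2 then F c y else 0)) :=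
      hasSum_sum_of_ne_finset_zero hs
    convert key using 1
    rw [Finset.sum_insert (by simp [ha, Ne.symm ha]), Finset.sum_insert (by simp; omega),
      Finset.sum_singleton]
    have q1 : a ≠ -a := by omega
    simp [F, ha, q1, sq]
  by_cases ha : a = 0
  · subst ha
    have hs : ∀ y : ℤ × ℤ, y ∉ ({(0, b), (b, b), (-b, b)} : Finset (ℤ × ℤ)) →
        (if y.1 * 0 + y.2 * b = 0 ^ 2 + b ^ 2 then F c y else 0) = 0 := by
      rintro ⟨y1, y2⟩ hy
      simp only [Finset.mem_insert, Finset.mem_singleton, Prod.mk.injEq, not_or, not_and] at hy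
      split_ifs with h
      · have h1 : y2 = b := by
          have : y2 * b = b * b := by simp only at h; linarith
          exact mul_right_cancel₀ hb this
        subst h1
        have e1 : y1 ≠ 0 := fun h => hy.1 h rfl
        have e2 : y1 ≠ y2 := fun h => hy.2.1 h rfl
        have e3 : y1 ≠ -y2 := fun h => hy.2.2 h rfl
        simp [F, e1, e2, e3, hb]
      · rfl
    have key : HasSum (fun y : ℤ × ℤ => if y.1 * 0 + y.2 * b = 0 ^ 2 + b ^ 2 then F c y else 0)
        (∑ y ∈ ({(0, b), (b, b), (-b, b)} : Finset (ℤ × ℤ)), (if y.1 * 0 + y.2 * b = 0 ^ 2 + b ^ 2 then F c y else 0)) :=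
      hasSum_sum_of_ne_finset_zero hs
    convert key using 1
    rw [Finset.sum_insert (by simp [hb, Ne.symm hb]), Finset.sum_insert (by simp; omega),
      Finset.sum_singleton]
    have q1 : b ≠ -b := by omega
    have q2 : -b ≠ b := by omega
    have q3 : (0 : ℤ) ≠ -b := by omega
    simp [F, hb, Ne.symm hb, q1, q2, q3, sq, g_neg]
  by_cases hab : a = b
  · subst hab
    have hs : ∀ y : ℤ × ℤ, y ∉ ({(2 * a, 0), (0, 2 * a), (a, a)} : Finset (ℤ × ℤ)) →
        (if y.1 * a + y.2 * a = a ^ 2 + a ^ 2 then F c y else 0) = 0 := by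
      rintro ⟨y1, y2⟩ hy
      simp only [Finset.mem_insert, Finset.mem_singleton, Prod.mk.injEq, not_or, not_and] at hy
      split_ifs with h
      · have h1 : y1 + y2 = 2 * a := by
          have : (y1 + y2) * a = (2 * a) * a := by simp only at h; linarith
          exact mul_right_cancel₀ ha this
        have e1 : y2 ≠ 0 := fun h => hy.1 (by omega) h
        have e1' : y1 ≠ 0 := fun h => hy.2.1 h (by omega)
        have e2 : y1 ≠ y2 := fun h => hy.2.2 (by omega) (by omega)
        have e3 : y1 ≠ -y2 := by omega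
        simp [F, e1, e1', e2, e3]
      · rfl
    have key : HasSum (fun y : ℤ × ℤ => if y.1 * a + y.2 * a = a ^ 2 + a ^ 2 then F c y else 0)
        (∑ y ∈ ({(2 * a, 0), (0, 2 * a), (a, a)} : Finset (ℤ × ℤ)), (if y.1 * a + y.2 * a = a ^ 2 + a ^ 2 then F c y else 0)) :=
      hasSum_sum_of_ne_finset_zero hs
    convert key using 1
    rw [Finset.sum_insert (by simp; omega), Finset.sum_insert (by simp; omega),
      Finset.sum_singleton]
    have q1 : a ≠ -a := by omega
    have q2 : (2 * a : ℤ) * a = a ^ 2 + a ^ 2 := by ring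
    simp [F, ha, q1, q2, g_two, sq]
    ring
  by_cases hab' : a = -b
  · subst hab'
    have hs : ∀ y : ℤ × ℤ, y ∉ ({(-(2 * b), 0), (0, 2 * b), (-b, b)} : Finset (ℤ × ℤ)) →
        (if y.1 * (-b) + y.2 * b = (-b) ^ 2 + b ^ 2 then F c y else 0) = 0 := by
      rintro ⟨y1, y2⟩ hy
      simp only [Finset.mem_insert, Finset.mem_singleton, Prod.mk.injEq, not_or, not_and] at hy
      split_ifs with h
      · have h1 : y2 - y1 = 2 * b := by
          have : (y2 - y1) * b = (2 * b) * b := by simp only at h; linarith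
          exact mul_right_cancel₀ hb this
        have e1 : y2 ≠ 0 := fun h => hy.1 (by omega) h
        have e1' : y1 ≠ 0 := fun h => hy.2.1 h (by omega)
        have e2 : y1 ≠ y2 := by omega
        have e3 : y1 ≠ -y2 := fun h => hy.2.2 (by omega) (by omega)
        simp [F, e1, e1', e2, e3]
      · rfl
    have key : HasSum (fun y : ℤ × ℤ => if y.1 * (-b) + y.2 * b = (-b) ^ 2 + b ^ 2 then F c y else 0)
        (∑ y ∈ ({(-(2 * b), 0), (0, 2 * b), (-b, b)} : Finset (ℤ × ℤ)), (if y.1 * (-b) + y.2 * b = (-b) ^ 2 + b ^ 2 then F c y else 0)) :=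
      hasSum_sum_of_ne_finset_zero hs
    convert key using 1
    rw [Finset.sum_insert (by simp; omega), Finset.sum_insert (by simp; omega),
      Finset.sum_singleton]
    have q1 : -b ≠ b := by omega
    have q2 : (2 * b : ℤ) * b = b * b + b * b := by ring
    simp [F, hb, q1, q2, g_two, g_neg, sq]
    ring
  · -- the generic case
    have hs : ∀ y : ℤ × ℤ,
        (if y.1 * a + y.2 * b = a ^ 2 + b ^ 2 then F c y else 0) = 0 := by
      rintro ⟨y1, y2⟩
      split_ifs with h
      · simp only at h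
        have hy0 : (y1, y2) ≠ (0 : ℤ × ℤ) := by
          intro h0
          have h1 : y1 = 0 := congrArg Prod.fst h0
          have h2 : y2 = 0 := congrArg Prod.snd h0
          rw [h1, h2] at h; simp at h; omega
        unfold F
        have t1 : (if y2 = 0 then g y1 else 0) = 0 := by
          split_ifs with e
          · rw [e] at h
            exact g_eq_zero (x := y1) (a := a) (b := b) (by linarith) hb (Ne.symm hab)
              (fun h' => hab' (by omega))
          · rfl
        have t2 : (if y1 = 0 then g y2 else 0) = 0 := by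
          split_ifs with e
          · rw [e] at h
            exact g_eq_zero (x := y2) (a := b) (b := a) (by linarith) ha hab
              (fun h' => hab' h')
          · rfl
        have t3 : (if y1 = y2 then -(g y1) / 2 else 0) = 0 := by
          split_ifs with e
          · have h3 : g (2 * y1) = 0 :=
              g_eq_zero (x := 2 * y1) (a := a + b) (b := a - b)
                (by rw [← e] at h; linarith) (by omega) (by omega) (by omega)
            rw [g_two] at h3
            have h4 : g y1 = 0 := by linarith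
            rw [h4]; simp
          · rfl
        have t4 : (if y1 = -y2 then -(g y1) / 2 else 0) = 0 := by
          split_ifs with e
          · have e' : y2 = -y1 := by omega
            have h3 : g (2 * y1) = 0 :=
              g_eq_zero (x := 2 * y1) (a := a - b) (b := a + b)
                (by rw [e'] at h; linarith) (by omega) (by omega) (by omega)
            rw [g_two] at h3
            have h4 : g y1 = 0 := by linarith
            rw [h4]; simp
          · rfl
        have t5 : (if (y1, y2) = (0 : ℤ × ℤ) then c else 0) = 0 := if_neg hy0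
        show (if y2 = 0 then g y1 else 0) + (if y1 = 0 then g y2 else 0) +
          (if y1 = y2 then -(g y1) / 2 else 0) + (if y1 = -y2 then -(g y1) / 2 else 0) +
          (if (y1, y2) = (0 : ℤ × ℤ) then c else 0) = 0
        rw [t1, t2, t3, t4, t5]; ring
      · rfl
    simp only [hs]
    exact hasSum_zero

lemma pt_mem {w z y : ℤ × ℤ} (hz : z ≠ 0) :
    pt y ∈ γ w z ↔ y.1 * z.1 + y.2 * z.2 = z.1 ^ 2 + z.2 ^ 2 := by
  have hz' : z.1 ≠ 0 ∨ z.2 ≠ 0 := by
    by_contra hcon
    push Not at hcon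
    exact hz (Prod.ext hcon.1 hcon.2)
  have hN : (0 : ℝ) < (z.1 : ℝ) ^ 2 + (z.2 : ℝ) ^ 2 := by
    rcases hz' with h | h
    · have : (z.1 : ℝ) ≠ 0 := by exact_mod_cast h
      positivity
    · have : (z.2 : ℝ) ≠ 0 := by exact_mod_cast h
      positivity
  have hL : 0 < len (pt z) := Real.sqrt_pos.mpr hN
  have hL2 : len (pt z) ^ 2 = (z.1 : ℝ) ^ 2 + (z.2 : ℝ) ^ 2 := Real.sq_sqrt hN.le
  unfold γ
  rw [if_neg hz]
  unfold line
  constructor
  · rintro ⟨t, ht⟩
    have h1 : (y.1 : ℝ) = z.1 + t * ((len (pt z))⁻¹ * (-(z.2 : ℝ))) := congrArg Prod.fst ht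
    have h2 : (y.2 : ℝ) = z.2 + t * ((len (pt z))⁻¹ * (z.1 : ℝ)) := congrArg Prod.snd ht
    have h3 : (y.1 : ℝ) * z.1 + y.2 * z.2 = (z.1 : ℝ) ^ 2 + (z.2 : ℝ) ^ 2 := by
      rw [h1, h2]; ring
    exact_mod_cast h3
  · intro h
    have h3 : (y.1 : ℝ) * z.1 + y.2 * z.2 = (z.1 : ℝ) ^ 2 + (z.2 : ℝ) ^ 2 := by exact_mod_cast h
    refine ⟨(((y.2 : ℝ) - z.2) * z.1 - ((y.1 : ℝ) - z.1) * z.2) / len (pt z), ?_⟩
    have hne := hL.ne'
    apply Prod.ext
    · show (y.1 : ℝ) = z.1 + (((y.2 : ℝ) - z.2) * z.1 - ((y.1 : ℝ) - z.1) * z.2) / len (pt z) *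
        ((len (pt z))⁻¹ * (-(z.2 : ℝ)))
      have e : (((y.2 : ℝ) - z.2) * z.1 - ((y.1 : ℝ) - z.1) * z.2) / len (pt z) *
        ((len (pt z))⁻¹ * (-(z.2 : ℝ))) =
        (((y.2 : ℝ) - z.2) * z.1 - ((y.1 : ℝ) - z.1) * z.2) * (-(z.2 : ℝ)) /
          (len (pt z)) ^ 2 := by field_simp
      rw [e, hL2]
      field_simp
      linear_combination (z.1 : ℝ) * h3
    · show (y.2 : ℝ) = z.2 + (((y.2 : ℝ) - z.2) * z.1 - ((y.1 : ℝ) - z.1) * z.2) / len (pt z) *
        ((len (pt z))⁻¹ * (z.1 : ℝ))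
      have e : (((y.2 : ℝ) - z.2) * z.1 - ((y.1 : ℝ) - z.1) * z.2) / len (pt z) *
        ((len (pt z))⁻¹ * (z.1 : ℝ)) =
        (((y.2 : ℝ) - z.2) * z.1 - ((y.1 : ℝ) - z.1) * z.2) * (z.1 : ℝ) /
          (len (pt z)) ^ 2 := by field_simp
      rw [e, hL2]
      field_simp
      linear_combination (z.2 : ℝ) * h3

lemma zero_mem (w : ℤ × ℤ) : pt 0 ∈ γ w 0 := by
  unfold γ; rw [if_pos rfl]
  exact ⟨0, by simp [pt]⟩

lemma summable_g : Summable g :=
  Summable.of_nonneg_of_le g_nonneg g_le (Real.summable_one_div_int_pow.mpr one_lt_two)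

lemma summable_F : Summable (F 0) := by
  have s1 : Summable fun y : ℤ × ℤ => if y.2 = 0 then g y.1 else 0 := by
    have hi : Function.Injective fun x : ℤ => (x, (0 : ℤ)) := fun a b h => congrArg Prod.fst h
    refine (hi.summable_iff ?_).mp ?_
    · rintro ⟨a, b⟩ h
      rw [if_neg]
      rintro rfl
      exact h ⟨a, rfl⟩
    · simpa [Function.comp_def] using summable_g
  have s2 : Summable fun y : ℤ × ℤ => if y.1 = 0 then g y.2 else 0 := by
    have hi : Function.Injective fun x : ℤ => ((0 : ℤ), x) := fun a b h => congrArg Prod.snd h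
    refine (hi.summable_iff ?_).mp ?_
    · rintro ⟨a, b⟩ h
      rw [if_neg]
      rintro rfl
      exact h ⟨b, rfl⟩
    · simpa [Function.comp_def] using summable_g
  have s3 : Summable fun y : ℤ × ℤ => if y.1 = y.2 then -(g y.1) / 2 else 0 := by
    have hi : Function.Injective fun x : ℤ => (x, x) := fun a b h => congrArg Prod.fst h
    refine (hi.summable_iff ?_).mp ?_
    · rintro ⟨a, b⟩ h
      rw [if_neg]
      intro h'
      have h'' : a = b := h'
      exact h ⟨a, by simp [h'']⟩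
    · simpa [Function.comp_def] using summable_g.neg.div_const 2
  have s4 : Summable fun y : ℤ × ℤ => if y.1 = -y.2 then -(g y.1) / 2 else 0 := by
    have hi : Function.Injective fun x : ℤ => (x, -x) := fun a b h => congrArg Prod.fst h
    refine (hi.summable_iff ?_).mp ?_
    · rintro ⟨a, b⟩ h
      rw [if_neg]
      intro h'
      have h'' : a = -b := h'
      exact h ⟨a, by simp [h'']⟩
    · simpa [Function.comp_def] using summable_g.neg.div_const 2
  have := ((s1.add s2).add s3).add s4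
  refine this.congr fun y => ?_
  simp [F]

lemma F_split (c : ℝ) (y : ℤ × ℤ) : F c y = F 0 y + if y = 0 then c else 0 := by
  unfold F; simp

lemma hasSum_origin (w : ℤ × ℤ) : ∃ c : ℝ,
    HasSum (fun y : {y : ℤ × ℤ // pt y ∈ γ w 0} => F c y) 0 := by
  have h1 : Summable (fun y : {y : ℤ × ℤ // pt y ∈ γ w 0} => F 0 y) := summable_F.subtype _
  refine ⟨-(∑' y : {y : ℤ × ℤ // pt y ∈ γ w 0}, F 0 y), ?_⟩
  have h2 : HasSum (fun y : {y : ℤ × ℤ // pt y ∈ γ w 0} =>
      if (y : ℤ × ℤ) = 0 then -(∑' y : {y : ℤ × ℤ // pt y ∈ γ w 0}, F 0 y) else 0)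
      (-(∑' y : {y : ℤ × ℤ // pt y ∈ γ w 0}, F 0 y)) := by
    have := hasSum_single (f := fun y : {y : ℤ × ℤ // pt y ∈ γ w 0} =>
      if (y : ℤ × ℤ) = 0 then -(∑' y : {y : ℤ × ℤ // pt y ∈ γ w 0}, F 0 y) else 0)
      ⟨0, zero_mem w⟩ (by
        intro y hy
        rw [if_neg]
        intro h0
        exact hy (Subtype.ext h0))
    simpa using this
  have h3 := h1.hasSum.add h2
  rw [add_neg_cancel] at h3
  refine h3.congr_fun ?_
  intro y
  exact F_split _ _

lemma F_bound (c : ℝ) {y : ℤ × ℤ} (hy : y ≠ 0) :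
    |F c y| ≤ 1 / ((y.1 : ℝ) ^ 2 + (y.2 : ℝ) ^ 2) := by
  obtain ⟨a, b⟩ := y
  have h5 : (if (a, b) = (0 : ℤ × ℤ) then c else 0) = 0 := if_neg hy
  show |(if b = 0 then g a else 0) + (if a = 0 then g b else 0) +
    (if a = b then -(g a) / 2 else 0) + (if a = -b then -(g a) / 2 else 0) +
    (if (a, b) = (0 : ℤ × ℤ) then c else 0)| ≤ 1 / ((a : ℝ) ^ 2 + (b : ℝ) ^ 2)
  rw [h5, add_zero]
  by_cases hb : b = 0
  · subst hb
    have ha : a ≠ 0 := fun h => hy (by rw [h]; rfl)
    rw [if_pos rfl, if_neg ha, if_neg ha, if_neg (by simpa using ha)]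
    have h1 := g_le a
    have h2 := g_nonneg a
    simp only [add_zero]
    rw [abs_of_nonneg h2]
    simpa using h1
  by_cases ha : a = 0
  · subst ha
    rw [if_neg hb, if_pos rfl, if_neg (Ne.symm hb), if_neg (by omega)]
    have h1 := g_le b
    have h2 := g_nonneg b
    simp only [add_zero, zero_add]
    rw [abs_of_nonneg h2]
    simpa using h1
  have ha' : (a : ℝ) ≠ 0 := by exact_mod_cast ha
  have h1 := g_le a
  have h2 := g_nonneg a
  have h3 : 1 / ((a : ℝ) ^ 2 + (a : ℝ) ^ 2) = (1 / (a : ℝ) ^ 2) / 2 := by field_simp; norm_num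
  by_cases hab : a = b
  · subst hab
    rw [if_neg ha, if_pos rfl, if_neg (by omega)]
    simp only [add_zero, zero_add]
    rw [h3, abs_div, abs_neg, abs_of_nonneg h2, abs_two]
    linarith
  by_cases hab' : a = -b
  · have hb' : b = -a := by omega
    subst hb'
    rw [if_neg hb, if_neg ha, if_neg hab, if_pos (by omega)]
    simp only [add_zero, zero_add]
    rw [abs_div, abs_neg, abs_of_nonneg h2, abs_two]
    push_cast
    rw [neg_sq, h3]
    linarith
  · rw [if_neg hb, if_neg ha, if_neg hab, if_neg hab']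
    simp only [add_zero, abs_zero]
    positivity

/-- **Main theorem** (Q1 is false, for every choice of the rational direction `w/|w|`).  There is
a nonzero `f : ℤ² → ℂ` with `|f(y)| ≤ |y|^{-2}` for `y ≠ 0` whose sums over all lines of `𝒯*`
converge and vanish; so the sums over the lines of `𝒯*` do not determine `f`. -/
theorem result (w : ℤ × ℤ) (_hw : w ≠ 0) :
    (∃ f : ℤ × ℤ → ℂ, f ≠ 0 ∧
      (∀ y : ℤ × ℤ, y ≠ 0 → ‖f y‖ ≤ 1 / ((y.1 : ℝ) ^ 2 + (y.2 : ℝ) ^ 2)) ∧ Decay f ∧
      ∀ z : ℤ × ℤ, HasSum (fun y : {y : ℤ × ℤ // pt y ∈ γ w z} => f y) 0) ∧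
    ¬ (∀ f : ℤ × ℤ → ℂ, Decay f → (∀ z : ℤ × ℤ, P f (γ w z) = 0) → f = 0) := by
  have main : ∃ f : ℤ × ℤ → ℂ, f ≠ 0 ∧
      (∀ y : ℤ × ℤ, y ≠ 0 → ‖f y‖ ≤ 1 / ((y.1 : ℝ) ^ 2 + (y.2 : ℝ) ^ 2)) ∧ Decay f ∧
      ∀ z : ℤ × ℤ, HasSum (fun y : {y : ℤ × ℤ // pt y ∈ γ w z} => f y) 0 := by
    obtain ⟨c, hc⟩ := hasSum_origin w
    have hbound : ∀ y : ℤ × ℤ, y ≠ 0 →
        ‖((F c y : ℝ) : ℂ)‖ ≤ 1 / ((y.1 : ℝ) ^ 2 + (y.2 : ℝ) ^ 2) := by
      intro y hy
      rw [Complex.norm_real]
      exact F_bound c hy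
    refine ⟨fun y => ((F c y : ℝ) : ℂ), ?_, hbound, ?_, ?_⟩
    · intro h0
      have h1 : ((F c (1, 0) : ℝ) : ℂ) = 0 := congrFun h0 (1, 0)
      have h2 : F c (1, 0) = 1 := by
        have h3 : g 1 = 1 := by rw [g_pos ⟨0, by norm_num⟩]; norm_num
        simp [F, h3]
      rw [h2] at h1
      norm_num at h1
    · refine ⟨1, one_pos, 1, fun y hy => ?_⟩
      refine le_trans (hbound y hy) ?_
      have hlen : (len (pt y)) ^ (-(1 + (1 : ℝ))) = 1 / ((y.1 : ℝ) ^ 2 + (y.2 : ℝ) ^ 2) := by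
        unfold len pt
        rw [show (-(1 + (1 : ℝ))) = -((2 : ℕ) : ℝ) by norm_num,
          Real.rpow_neg (Real.sqrt_nonneg _), Real.rpow_natCast, Real.sq_sqrt (by positivity),
          one_div]
      rw [hlen, one_mul]
    · intro z
      apply Complex.hasSum_ofReal.mpr
      by_cases hz : z = 0
      · subst hz; exact hc
      · have hz' : z.1 ≠ 0 ∨ z.2 ≠ 0 := by
          by_contra hcon
          push Not at hcon
          exact hz (Prod.ext hcon.1 hcon.2)
        have h1 := hasSum_line c z.1 z.2 hz'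
        have h2 : HasSum ((({y : ℤ × ℤ | pt y ∈ γ w z}).indicator (F c))) 0 := by
          refine h1.congr_fun ?_
          intro y
          by_cases hy : pt y ∈ γ w z
          · rw [Set.indicator_of_mem (show y ∈ {y : ℤ × ℤ | pt y ∈ γ w z} from hy),
              if_pos ((pt_mem hz).mp hy)]
          · rw [Set.indicator_of_notMem (show y ∉ {y : ℤ × ℤ | pt y ∈ γ w z} from hy),
              if_neg fun h => hy ((pt_mem hz).mpr h)]
        exact (hasSum_subtype_iff_indicator (s := {y : ℤ × ℤ | pt y ∈ γ w z})).mpr h2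
  refine ⟨main, fun h => ?_⟩
  obtain ⟨f, h1, _, h3, h4⟩ := main
  exact h1 (h f h3 fun z => (h4 z).tsum_eq)

end Pool.Agent.Results.MP_ca57f4_an.PerpendicularLines
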